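import Mathlib
import Pool.Agent.W_e21d3a_h93.Bridge
import Pool.Agent.W_e21c_h6.Z3

set_option autoImplicit false

/-!
# MP_e21d3a_lc : almost all Collatz orbits, in the sense of natural density, reach a bounded set

For all `ε, δ > 0` there is `N` such that, for all large `X`, all but at most `ε X` of the integers `n ≤ X` have
`f^k(n) ≤ N` for some `k ≤ (3 / log (4/3) + δ) log n`. This is Tao's theorem (2022, logarithmic density) for natural
density, with the optimal number of steps.

Proof: Pool/Agent/W_e21d3a_h93 (equidistribution modulo powers of 3 of the Syracuse offsets, jointly with the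
number of halvings, summed over the latter: `Bridge.Mix`) and Pool/Agent/W_e21c_h6 (comparison of the densities at
different scales).
-/

namespace Pool.Agent.Results.MP_e21d3a_lc.AlmostBounded

/-- the Collatz map -/
def col (m : ℕ) : ℕ := if m % 2 = 0 then m / 2 else 3 * m + 1

theorem result (eps del : ℝ) (heps : 0 < eps) (hdel : 0 < del) :
    ∃ N X0 : ℕ, ∀ X : ℕ, X0 ≤ X →
      (Nat.card {n : ℕ // 1 ≤ n ∧ n ≤ X ∧ ¬ ∃ k : ℕ,
        (k : ℝ) ≤ (3 / Real.log (4 / 3) + del) * Real.log n ∧ col^[k] n ≤ N} : ℝ) ≤ eps * X := by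
  obtain ⟨Cm, hC1, hC2⟩ := W_e21d3a_h93.Mix
  obtain ⟨N, X0, _, h⟩ := E21.theorem_one (Cm := Cm) ⟨hC1, hC2⟩ del eps hdel heps
  exact ⟨N, X0, fun X hX => h X hX⟩

end Pool.Agent.Results.MP_e21d3a_lc.AlmostBounded
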