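import Mathlib
import Pool.Agent.W_e21d3a_h93.Bridge
import Pool.Agent.W_e21d3a_h93.CE2
import Pool.Agent.W_e21c_h6.Z3

set_option autoImplicit false

/-!
# MP_e21d3a_lc : the Collatz set is in P up to a set of natural density zero

`f` is the Collatz map, `A` the set of the positive integers whose trajectory reaches `1`. Every computably
enumerable set `S` with `n ∈ S ↔ f(n) ∈ S` for `n > 0` has a subset `C` which is decidable in polynomial time and
for which `S \ C` has natural density `0`. For `S = A` one can take `C = {n : f^k(n) = 1 for some k ≤ 8 log₂ n}`;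
for every `δ > 0` almost all `n ∈ A` reach `1` within `(3 / log (4/3) + δ) log n` steps, and
`3 log 2 / log (4/3) = 7.2284...`.
-/

namespace Pool.Agent.Results.MP_e21d3a_lc.CoarselyDecidable

/-- the Collatz map -/
def col (m : ℕ) : ℕ := if m % 2 = 0 then m / 2 else 3 * m + 1

/-- the set of positive integers whose trajectory reaches 1 -/
def A : Set ℕ := {n | 0 < n ∧ ∃ k : ℕ, col^[k] n = 1}

/-- for `n > 0`: `n ∈ S` if and only if `f(n) ∈ S` -/
def Invariant (S : Set ℕ) : Prop := ∀ n, 0 < n → (n ∈ S ↔ col n ∈ S)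

/-- `C` is decidable in polynomial time in the length of the binary expansion of `n` -/
def InP (C : Set ℕ) : Prop := ∃ g : ℕ → Bool, (∀ n, g n = true ↔ n ∈ C) ∧
  Nonempty (Turing.TM2ComputableInPolyTime Computability.encodeNat Computability.encodeBool g)

/-- `S` has natural density `0` -/
def Null (S : Set ℕ) : Prop :=
  Filter.Tendsto (fun X : ℕ => (Nat.card {n : ℕ // 1 ≤ n ∧ n ≤ X ∧ n ∈ S} : ℝ) / X) Filter.atTop (nhds 0)

theorem null_of {S : Set ℕ} (h : ∀ e : ℝ, 0 < e → ∃ X0 : ℕ, ∀ X : ℕ, X0 ≤ X →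
    (Nat.card {n : ℕ // 1 ≤ n ∧ n ≤ X ∧ n ∈ S} : ℝ) ≤ e * X) : Null S := by
  unfold Null
  rw [Metric.tendsto_atTop]
  intro e he
  obtain ⟨X0, hX0⟩ := h (e / 2) (by positivity)
  refine ⟨max X0 1, fun X hX => ?_⟩
  have h1 := hX0 X (le_trans (le_max_left _ _) hX)
  have h2 : (0 : ℝ) < X := by exact_mod_cast (lt_of_lt_of_le one_pos (le_trans (le_max_right _ _) hX))
  rw [Real.dist_eq, sub_zero, abs_of_nonneg (by positivity), div_lt_iff₀ h2]
  nlinarith

theorem col_primrec : Primrec col := by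
  refine Primrec.ite ?_ ?_ ?_
  · exact Primrec.eq.comp (Primrec.nat_mod.comp Primrec.id (Primrec.const 2)) (Primrec.const 0)
  · exact Primrec.nat_div.comp Primrec.id (Primrec.const 2)
  · exact Primrec.nat_add.comp (Primrec.nat_mul.comp (Primrec.const 3) Primrec.id) (Primrec.const 1)

theorem col_zero (j : ℕ) : col^[j] 0 = 0 := by
  induction j with
  | zero => rfl
  | succ j ih => rw [Function.iterate_succ_apply, show col 0 = 0 from rfl, ih]

theorem mem_A {n k : ℕ} (h : col^[k] n = 1) : n ∈ A := by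
  refine ⟨?_, k, h⟩
  rcases Nat.eq_zero_or_pos n with h0 | h0
  · subst h0
    rw [col_zero] at h
    exact absurd h (by norm_num)
  · exact h0

theorem A_re : REPred (fun n => n ∈ A) := by
  have h1 : Primrec₂ (fun n k : ℕ => decide (col^[k] n = 1)) := by
    have h2 : Primrec (fun q : ℕ × ℕ => col^[q.2] q.1) :=
      Primrec.nat_iterate Primrec.snd Primrec.fst (col_primrec.comp Primrec.snd).to₂
    exact (Primrec.eq.comp h2 (Primrec.const 1)).decide
  have h3 : Partrec fun n : ℕ => Nat.rfind fun k => (Part.some (decide (col^[k] n = 1)) : Part Bool) :=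
    Partrec.rfind (p := fun n k : ℕ => (Part.some (decide (col^[k] n = 1)) : Part Bool)) h1.to_comp
  refine h3.dom_re.of_eq fun n => Nat.rfind_dom.trans ?_
  constructor
  · rintro ⟨k, hk, _⟩
    exact mem_A (k := k) (by simpa using hk)
  · rintro ⟨_, k, hk⟩
    exact ⟨k, by simpa using hk, fun _ => trivial⟩

theorem A_invariant : Invariant A := by
  intro n hn
  constructor
  · rintro ⟨_, k, hk⟩
    refine ⟨?_, ?_⟩
    · unfold col; split <;> omega
    · cases k with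
      | zero =>
        have : n = 1 := hk
        subst this
        exact ⟨2, by decide⟩
      | succ k => exact ⟨k, hk⟩
  · rintro ⟨_, k, hk⟩
    exact ⟨hn, k + 1, hk⟩

theorem result :
    (∀ S : Set ℕ, Invariant S → REPred (fun n => n ∈ S) →
      ∃ C : Set ℕ, InP C ∧ C ⊆ S ∧ Null (S \ C)) ∧
    (Invariant A ∧ REPred (fun n => n ∈ A)) ∧
    (InP {n : ℕ | ∃ k ≤ 8 * Nat.log 2 n, col^[k] n = 1} ∧
      {n : ℕ | ∃ k ≤ 8 * Nat.log 2 n, col^[k] n = 1} ⊆ A ∧
      Null (A \ {n : ℕ | ∃ k ≤ 8 * Nat.log 2 n, col^[k] n = 1})) ∧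
    (∀ del : ℝ, 0 < del → Null {n : ℕ | n ∈ A ∧ ¬ ∃ k : ℕ,
        (k : ℝ) ≤ (3 / Real.log (4 / 3) + del) * Real.log n ∧ col^[k] n = 1}) := by
  obtain ⟨Cm, hC1, hC2⟩ := W_e21d3a_h93.Mix
  have hmix : E21.Mix Cm := ⟨hC1, hC2⟩
  have h2 : ∀ del : ℝ, 0 < del → ∀ e : ℝ, 0 < e → ∃ X0 : ℕ, ∀ X : ℕ, X0 ≤ X →
      (Nat.card {n : ℕ // 1 ≤ n ∧ n ≤ X ∧ n ∈ {n : ℕ | n ∈ A ∧ ¬ ∃ k : ℕ,
      (k : ℝ) ≤ (3 / Real.log (4 / 3) + del) * Real.log n ∧ col^[k] n = 1}} : ℝ) ≤ e * X := by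
    intro del hdel e he
    obtain ⟨X0, h⟩ := E21.theorem_two hmix del e hdel he
    refine ⟨X0, fun X hX => le_trans ?_ (h X hX)⟩
    refine Nat.cast_le.2 (W_e21d3a_h93.card_mono fun n _ hn => ?_)
    exact ⟨hn.1.2, hn.2⟩
  refine ⟨?_, ⟨A_invariant, A_re⟩, ⟨?_, ?_, ?_⟩, fun del hdel => null_of (h2 del hdel)⟩
  · intro S hS hre
    obtain ⟨g, hg, hgS, h⟩ := W_e21d3a_h93.ce_poly hmix S hS hre
    refine ⟨{n | g n = true}, ⟨g, fun n => Iff.rfl, hg⟩, ?_, null_of fun e he => ?_⟩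
    · exact hgS
    · obtain ⟨X0, h⟩ := h e he
      refine ⟨X0, fun X hX => le_trans ?_ (h X hX)⟩
      refine Nat.cast_le.2 (W_e21d3a_h93.card_mono fun n _ hn => ⟨hn.1, ?_⟩)
      have := hn.2
      simpa using this
  · exact ⟨_, fun n => decide_eq_true_iff, W_e21d3a_h93.poly_col⟩
  · rintro n ⟨k, _, hk1⟩
    exact mem_A hk1
  · refine null_of fun e he => ?_
    obtain ⟨X0, h⟩ := h2 (1 / 10) (by norm_num) (e / 2) (by positivity)
    refine ⟨max X0 ⌈2 * 4096 / e⌉₊, fun X hX => ?_⟩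
    have hXa : X0 ≤ X := le_trans (le_max_left _ _) hX
    have hXb : 2 * 4096 / e ≤ X := Nat.ceil_le.1 (le_trans (le_max_right _ _) hX)
    have h3 := h X hXa
    have h4 : (4096 : ℝ) ≤ e / 2 * X := by
      rw [div_le_iff₀ he] at hXb
      linarith
    have h5 := W_e21d3a_h93.card_le_add (X := X) (M := 4096)
      (P := fun n => n ∈ A \ {n : ℕ | ∃ k ≤ 8 * Nat.log 2 n, col^[k] n = 1})
      (Q := fun n => n ∈ {n : ℕ | n ∈ A ∧ ¬ ∃ k : ℕ,
        (k : ℝ) ≤ (3 / Real.log (4 / 3) + 1 / 10) * Real.log n ∧ col^[k] n = 1}) (by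
      intro n hn hP
      refine ⟨hP.1, ?_⟩
      rintro ⟨k, hk, hk2⟩
      refine hP.2 ⟨k, ?_, hk2⟩
      have := W_e21d3a_h93.KK_le_eight (n := n) hn
      exact_mod_cast hk.trans this)
    have h6 : (Nat.card {n : ℕ // 1 ≤ n ∧ n ≤ X ∧
          n ∈ A \ {n : ℕ | ∃ k ≤ 8 * Nat.log 2 n, col^[k] n = 1}} : ℝ) ≤
        (Nat.card {n : ℕ // 1 ≤ n ∧ n ≤ X ∧ n ∈ {n : ℕ | n ∈ A ∧ ¬ ∃ k : ℕ,
        (k : ℝ) ≤ (3 / Real.log (4 / 3) + 1 / 10) * Real.log n ∧ col^[k] n = 1}} : ℝ) + 4096 := by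
      exact_mod_cast h5
    linarith

end Pool.Agent.Results.MP_e21d3a_lc.CoarselyDecidable
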