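import Mathlib
import Pool.Agent.W_e21d3a_h93.Bridge
import Pool.Agent.W_e21d3a_h93.G1

set_option autoImplicit false

/-!
# MP_e21d3a_lc : errorless polynomial time algorithms for the Collatz set

For every set `S` of positive integers which is invariant under the Collatz map `f` (`n ∈ S ↔ f(n) ∈ S`), such as
the set `A` of the problem, and every `ε > 0` there is a polynomial time algorithm which never errs on the question
`n ∈ S` and which gives no answer only on a set of integers of upper natural density at most `ε`. (The algorithm is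
given as two tests `Y`, `N`, for yes and for no.)
-/

namespace Pool.Agent.Results.MP_e21d3a_lc.ErrorlessTests

/-- the Collatz map -/
def col (m : ℕ) : ℕ := if m % 2 = 0 then m / 2 else 3 * m + 1

/-- the set of positive integers whose trajectory reaches 1 -/
def A : Set ℕ := {n | 0 < n ∧ ∃ k : ℕ, col^[k] n = 1}

/-- for `n > 0`: `n ∈ S` if and only if `f(n) ∈ S` -/
def Invariant (S : Set ℕ) : Prop := ∀ n, 0 < n → (n ∈ S ↔ col n ∈ S)

/-- the test `g` is computable in polynomial time in the length of the binary expansion of `n` -/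
def PolyTime (g : ℕ → Bool) : Prop :=
  Nonempty (Turing.TM2ComputableInPolyTime Computability.encodeNat Computability.encodeBool g)

theorem A_invariant : Invariant A := by
  intro n hn
  constructor
  · rintro ⟨_, k, hk⟩
    refine ⟨?_, ?_⟩
    · unfold col; split <;> omega
    · cases k with
      | zero =>
        have : n = 1 := hk
        subst this
        exact ⟨2, by decide⟩
      | succ k => exact ⟨k, hk⟩
  · rintro ⟨_, k, hk⟩
    exact ⟨hn, k + 1, hk⟩

theorem result :
    Invariant A ∧ ∀ S : Set ℕ, Invariant S → ∀ eps : ℝ, 0 < eps →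
      ∃ Y N : ℕ → Bool, PolyTime Y ∧ PolyTime N ∧
        (∀ n, 0 < n → Y n = true → n ∈ S) ∧ (∀ n, 0 < n → N n = true → n ∉ S) ∧
        ∃ X0 : ℕ, ∀ X : ℕ, X0 ≤ X →
          (Nat.card {n : ℕ // 1 ≤ n ∧ n ≤ X ∧ Y n = false ∧ N n = false} : ℝ) ≤ eps * X := by
  obtain ⟨Cm, hC1, hC2⟩ := W_e21d3a_h93.Mix
  exact ⟨A_invariant, fun S hS eps heps =>
    W_e21d3a_h93.errorless (Cm := Cm) ⟨hC1, hC2⟩ S hS eps heps⟩

end Pool.Agent.Results.MP_e21d3a_lc.ErrorlessTests
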