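import Mathlib
import Pool.Agent.W_e21d3a_h69.U5

set_option autoImplicit false

/-!
# MP_e21d3a_lc : errorless algorithms for the Collatz set and its density

Every set of positive integers which is invariant under the Collatz map `f` has a natural density. For a c.e.
invariant set `S`, such as the set `A` of the problem, the following are equivalent: the density of `S` is a
computable real number; there is a correct partial algorithm for `S` which halts on a set of natural density 1;
there is a correct partial algorithm for `S` which halts on all elements of `S` and on all numbers whose component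
in the graph of `f` has positive density.

Proof: Pool/Agent/W_e21d3a_h69 (on top of Pool/Agent/W_e21d3a_h93: natural densities of invariant sets, their rate
of convergence and countable additivity).
-/

namespace Pool.Agent.Results.MP_e21d3a_lc.GenericDensity

/-- the Collatz map -/
def col (m : ℕ) : ℕ := if m % 2 = 0 then m / 2 else 3 * m + 1

/-- the set of positive integers whose trajectory reaches 1 -/
def A : Set ℕ := {n | 0 < n ∧ ∃ k : ℕ, col^[k] n = 1}

/-- for `n > 0`: `n ∈ S` if and only if `f(n) ∈ S` -/
def Invariant (S : Set ℕ) : Prop := ∀ n, 0 < n → (n ∈ S ↔ col n ∈ S)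

/-- the component of `n`: the positive integers whose trajectory meets the trajectory of `n` -/
def Component (n : ℕ) : Set ℕ := {x | 0 < x ∧ ∃ a b : ℕ, col^[a] x = col^[b] n}

/-- the part of `S` in the positive integers has the natural density `s` -/
def HasDensity (S : Set ℕ) (s : ℝ) : Prop :=
  Filter.Tendsto (fun X : ℕ => (Nat.card {n : ℕ // 1 ≤ n ∧ n ≤ X ∧ n ∈ S} : ℝ) / X) Filter.atTop (nhds s)

/-- `x ≥ 0` is a computable real number: some computable `q` has `|x - q(n)/(n+1)| ≤ 1/(n+1)` for all `n` -/
def ComputableReal (x : ℝ) : Prop := ∃ q : ℕ → ℕ, Computable q ∧ ∀ n : ℕ, |x * (n + 1) - q n| ≤ 1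

/-- `φ` is a partial computable function which never gives a wrong answer to the question whether the positive
integer `n` belongs to `S` -/
def Errorless (S : Set ℕ) (φ : ℕ →. Bool) : Prop :=
  Partrec φ ∧ ∀ n, 0 < n → ∀ b ∈ φ n, (b = true ↔ n ∈ S)

theorem A_invariant : Invariant A := by
  intro n hn
  constructor
  · rintro ⟨_, k, hk⟩
    refine ⟨?_, ?_⟩
    · unfold col; split <;> omega
    · cases k with
      | zero =>
        have : n = 1 := hk
        subst this
        exact ⟨2, by decide⟩
      | succ k => exact ⟨k, hk⟩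
  · rintro ⟨_, k, hk⟩
    exact ⟨hn, k + 1, hk⟩

theorem col_primrec : Primrec col := by
  refine Primrec.ite ?_ ?_ ?_
  · exact Primrec.eq.comp (Primrec.nat_mod.comp Primrec.id (Primrec.const 2)) (Primrec.const 0)
  · exact Primrec.nat_div.comp Primrec.id (Primrec.const 2)
  · exact Primrec.nat_add.comp (Primrec.nat_mul.comp (Primrec.const 3) Primrec.id) (Primrec.const 1)

theorem A_re : REPred (fun n => n ∈ A) := by
  have h1 : Primrec₂ (fun n k : ℕ => decide (col^[k] n = 1)) := by
    have h2 : Primrec (fun q : ℕ × ℕ => col^[q.2] q.1) :=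
      Primrec.nat_iterate Primrec.snd Primrec.fst (col_primrec.comp Primrec.snd).to₂
    exact (Primrec.eq.comp h2 (Primrec.const 1)).decide
  have h3 : Partrec fun n : ℕ => Nat.rfind fun k => (Part.some (decide (col^[k] n = 1)) : Part Bool) :=
    Partrec.rfind (p := fun n k : ℕ => (Part.some (decide (col^[k] n = 1)) : Part Bool)) h1.to_comp
  refine h3.dom_re.of_eq fun n => Nat.rfind_dom.trans ?_
  constructor
  · rintro ⟨k, hk, _⟩
    have hk' : col^[k] n = 1 := by simpa using hk
    refine ⟨?_, k, hk'⟩
    rcases Nat.eq_zero_or_pos n with h0 | h0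
    · subst h0
      exfalso
      have : ∀ j, col^[j] 0 = 0 := by
        intro j
        induction j with
        | zero => rfl
        | succ j ih => rw [Function.iterate_succ_apply, show col 0 = 0 from rfl, ih]
      rw [this] at hk'
      exact absurd hk' (by norm_num)
    · exact h0
  · rintro ⟨_, k, hk⟩
    exact ⟨k, by simpa using hk, fun _ => trivial⟩

theorem result : ∃ d : Set ℕ → ℝ,
    (∀ S : Set ℕ, Invariant S → HasDensity S (d S)) ∧
    (∀ S : Set ℕ, Invariant S → REPred (fun n => n ∈ S) → List.TFAE [
      ComputableReal (d S),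
      ∃ φ : ℕ →. Bool, Errorless S φ ∧ HasDensity {n | (φ n).Dom} 1,
      ∃ φ : ℕ →. Bool, Errorless S φ ∧ ∀ n, 0 < n → n ∈ S ∨ 0 < d (Component n) → (φ n).Dom]) ∧
    Invariant A ∧ REPred (fun n => n ∈ A) := by
  classical
  have h3 : ∀ S : Set ℕ, ∃ s : ℝ, Invariant S → HasDensity S s := by
    intro S
    by_cases hS : Invariant S
    · obtain ⟨s, hs⟩ := W_e21d3a_h69.dens_exists S hS
      exact ⟨s, fun _ => hs⟩
    · exact ⟨0, fun h => absurd h hS⟩
  choose d hd using h3
  refine ⟨d, hd, ?_, A_invariant, A_re⟩
  intro S hS hc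
  have hcomp : ∀ n, HasDensity (Component n) (d (Component n)) := fun n =>
    hd _ (W_e21d3a_h69.Comp_inv n)
  tfae_have 1 → 3 := by
    intro h
    obtain ⟨φ, hφ, hdom⟩ := W_e21d3a_h69.algorithm S hS hc (d S) (hd S hS) h
    refine ⟨φ, hφ, fun n hn h => hdom n hn ?_⟩
    rcases h with h | h
    · exact Or.inl h
    · exact Or.inr ⟨_, hcomp n, h⟩
  tfae_have 3 → 2 := by
    rintro ⟨φ, hφ, hdom⟩
    refine ⟨φ, hφ, ?_⟩
    obtain ⟨P, hP1, hP2⟩ := W_e21d3a_h69.dens_positive
    refine W_e21d3a_h69.dens_one_of_superset hP1 fun n hn hn0 => ?_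
    obtain ⟨_, r, hr, hr0⟩ := hP2 n hn
    refine hdom n hn0 (Or.inr ?_)
    rwa [W_e21d3a_h93.G3c_unique (hcomp n) hr]
  tfae_have 2 → 1 := by
    rintro ⟨φ, hφ, hD⟩
    exact W_e21d3a_h69.converse S hS hc (d S) (hd S hS) φ hφ hD
  tfae_finish

end Pool.Agent.Results.MP_e21d3a_lc.GenericDensity
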